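import Mathlib

/-!
A small verified checker for RUP refutations with hints (the RUP fragment of LRAT), written so
that the kernel can run it through `decide +kernel`.

A clause is a pair of lists of variables (positive ones, negative ones).  A proof is a list of
natural numbers, one for each derived clause.  The base `2 ^ 20` digits of such a number, from
the lowest, are: the codes of the literals (`2 * v + 2` for `v`, `2 * v + 1` for its negation),
a zero digit, then the indices (from 1) of the hint clauses.  Input clauses get the indices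
`1, 2, ...` in order and each derived clause gets the next free index.

The kernel caches terms by a hash that sees only the low 64 bits of a numeral, so variable `v`
sits at bit `v + 64` of a mask and the low bits carry a counter that keeps hashes apart.
-/

namespace Pool.Agent.Lib.RUP

/-- A clause: the positive and the negative variables. -/
abbrev Clause : Type := List ℕ × List ℕ

/-- The assignment `x` satisfies the clause `c`. -/
def Clause.Sat (x : ℕ → Bool) (c : Clause) : Prop :=
  (∃ i ∈ c.1, x i = true) ∨ (∃ i ∈ c.2, x i = false)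

/-- Satisfaction of a clause given by two bit masks. -/
def SatM (x : ℕ → Bool) (p n : ℕ) : Prop :=
  ∃ i, (p.testBit (i + 64) = true ∧ x i = true) ∨ (n.testBit (i + 64) = true ∧ x i = false)

/-- Clause database: a binary trie. -/
inductive DB : Type
  | leaf : DB
  | node : DB → ℕ → ℕ → ℕ → DB → DB

/-- All stored clauses hold. -/
def DB.All (x : ℕ → Bool) : DB → Prop
  | .leaf => True
  | .node l _ p n r => l.All x ∧ SatM x p n ∧ r.All x

/-- Force the evaluation of a number before passing it on. -/
noncomputable def force (n : ℕ) (k : ℕ → Bool) : Bool :=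
  Nat.rec false (fun m _ => k m) (Nat.add n 1)

lemma force_eq (n : ℕ) (k : ℕ → Bool) : force n k = k n := by
  cases n <;> rfl

/-- Look a clause up and pass it on. -/
noncomputable def DB.get (t : DB) : ℕ → (ℕ → ℕ → Bool) → Bool :=
  DB.rec (fun _ _ => false)
    (fun _ _ p n _ gl gr i k =>
      Bool.rec (Bool.rec (gr (Nat.shiftRight i 1) k) (gl (Nat.shiftRight i 1) k)
        (Nat.beq (Nat.land i 1) 0)) (k p n) (Nat.ble i 1)) t

lemma DB.get_sound {x : ℕ → Bool} (t : DB) (ht : t.All x) (i : ℕ) (k : ℕ → ℕ → Bool)
    (h : t.get i k = true) : ∃ p n, SatM x p n ∧ k p n = true := by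
  induction t generalizing i with
  | leaf => exact absurd h (by simp [DB.get])
  | node l s p n r ihl ihr =>
    obtain ⟨h1, h2, h3⟩ := ht
    have e : (DB.node l s p n r).get i k =
      Bool.rec (Bool.rec (r.get (Nat.shiftRight i 1) k) (l.get (Nat.shiftRight i 1) k)
        (Nat.beq (Nat.land i 1) 0)) (k p n) (Nat.ble i 1) := rfl
    rw [e] at h
    cases hb : Nat.ble i 1
    · rw [hb] at h
      cases hc : Nat.beq (Nat.land i 1) 0
      · rw [hc] at h; exact ihr h3 _ h
      · rw [hc] at h; exact ihl h1 _ h
    · rw [hb] at h; exact ⟨p, n, h2, h⟩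

/-- Split a database into its parts; an empty one has a tautology at its root. -/
noncomputable def DB.split (t : DB) (k : DB → ℕ → ℕ → ℕ → DB → Bool) : Bool :=
  DB.rec (k .leaf 0 18446744073709551616 18446744073709551616 .leaf)
    (fun l s p n r _ _ => k l s p n r) t

lemma satM_one (x : ℕ → Bool) : SatM x 18446744073709551616 18446744073709551616 := by
  refine ⟨0, ?_⟩
  have : Nat.testBit 18446744073709551616 (0 + 64) = true := by decide +kernel
  cases x 0 <;> simp [this]

lemma DB.split_sound {x : ℕ → Bool} (t : DB) (ht : t.All x) (k : DB → ℕ → ℕ → ℕ → DB → Bool)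
    (h : t.split k = true) :
    ∃ l s p n r, l.All x ∧ SatM x p n ∧ r.All x ∧ k l s p n r = true := by
  cases t with
  | leaf => exact ⟨.leaf, 0, _, _, .leaf, trivial, satM_one x, trivial, h⟩
  | node l s p n r => exact ⟨l, s, p, n, r, ht.1, ht.2.1, ht.2.2, h⟩

/-- Insert a clause and pass the new database on. -/
noncomputable def ins (s p n : ℕ) (fuel : ℕ) : DB → ℕ → (DB → Bool) → Bool :=
  Nat.rec (fun _ _ _ => false)
    (fun _ ih t i k => t.split fun l s0 p0 n0 r =>
      Bool.rec
        (Bool.rec (ih r (Nat.shiftRight i 1) fun r' => k (.node l s0 p0 n0 r'))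
          (ih l (Nat.shiftRight i 1) fun l' => k (.node l' s0 p0 n0 r))
          (Nat.beq (Nat.land i 1) 0))
        (k (.node l s p n r)) (Nat.ble i 1)) fuel

lemma ins_sound {x : ℕ → Bool} {s p n : ℕ} (hc : SatM x p n) (fuel : ℕ) (t : DB) (ht : t.All x)
    (i : ℕ) (k : DB → Bool) (h : ins s p n fuel t i k = true) :
    ∃ t' : DB, t'.All x ∧ k t' = true := by
  induction fuel generalizing t i k with
  | zero => exact absurd h (by simp [ins])
  | succ f ih =>
    have e : ins s p n (f + 1) t i k = t.split fun l s0 p0 n0 r =>
      Bool.rec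
        (Bool.rec (ins s p n f r (Nat.shiftRight i 1) fun r' => k (.node l s0 p0 n0 r'))
          (ins s p n f l (Nat.shiftRight i 1) fun l' => k (.node l' s0 p0 n0 r))
          (Nat.beq (Nat.land i 1) 0))
        (k (.node l s p n r)) (Nat.ble i 1) := rfl
    rw [e] at h
    obtain ⟨l, s0, p0, n0, r, h1, h2, h3, h4⟩ := t.split_sound ht _ h
    cases hb : Nat.ble i 1
    · rw [hb] at h4
      cases hd : Nat.beq (Nat.land i 1) 0
      · rw [hd] at h4
        obtain ⟨r', h5, h6⟩ := ih r h3 _ _ h4
        exact ⟨.node l s0 p0 n0 r', ⟨h1, h2, h5⟩, h6⟩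
      · rw [hd] at h4
        obtain ⟨l', h5, h6⟩ := ih l h1 _ _ h4
        exact ⟨.node l' s0 p0 n0 r, ⟨h5, h2, h3⟩, h6⟩
    · rw [hb] at h4
      exact ⟨.node l s p n r, ⟨h1, hc, h3⟩, h4⟩

/-- The partial assignment `(T, F)` agrees with `x`. -/
def Agree (x : ℕ → Bool) (T F : ℕ) : Prop :=
  ∀ i, (T.testBit (i + 64) = true → x i = true) ∧ (F.testBit (i + 64) = true → x i = false)

/-- One step of unit propagation; `p'`, `n'` are the literals not yet false. -/
noncomputable def unitStep (ih : ℕ → ℕ → ℕ → Bool) (h T F p' n' : ℕ) : Bool :=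
  Bool.rec
    (Bool.rec false
      (Bool.rec false
        (force (Nat.shiftRight h 20) fun h' => force (Nat.lor T p') fun T' => ih h' T' F)
        (Nat.beq (Nat.land p' (Nat.sub p' 1)) 0))
      (Nat.beq n' 0))
    (Bool.rec
      (Bool.rec false
        (force (Nat.shiftRight h 20) fun h' => force (Nat.lor F n') fun F' => ih h' T F')
        (Nat.beq (Nat.land n' (Nat.sub n' 1)) 0))
      true (Nat.beq n' 0))
    (Nat.beq p' 0)

/-- Unit propagation along the hints packed in `h`. -/
noncomputable def prop (t : DB) (fuel : ℕ) : ℕ → ℕ → ℕ → Bool :=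
  Nat.rec (fun _ _ _ => false)
    (fun _ ih h T F =>
      force (Nat.land h 1048575) fun i => t.get i fun p n =>
        unitStep ih h T F (Nat.xor p (Nat.land p F)) (Nat.xor n (Nat.land n T))) fuel

lemma tb_diff (a b i : ℕ) :
    (Nat.xor a (Nat.land a b)).testBit i = (a.testBit i && !b.testBit i) := by
  have : Nat.xor a (Nat.land a b) = a ^^^ (a &&& b) := rfl
  rw [this, Nat.testBit_xor, Nat.testBit_and]
  cases a.testBit i <;> cases b.testBit i <;> rfl

lemma tb_lor (a b i : ℕ) : (Nat.lor a b).testBit i = (a.testBit i || b.testBit i) := by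
  have : Nat.lor a b = a ||| b := rfl
  rw [this, Nat.testBit_or]

lemma single_bit {a i j : ℕ} (h : Nat.land a (Nat.sub a 1) = 0) (hi : a.testBit i = true)
    (hj : a.testBit j = true) : i = j := by
  have h0 : a ≠ 0 := by
    rintro rfl
    simp at hi
  obtain ⟨k, rfl⟩ := (Nat.and_sub_one_eq_zero_iff_isPowerOfTwo h0).1 h
  rw [Nat.testBit_two_pow] at hi hj
  simp only [decide_eq_true_eq] at hi hj
  omega

lemma prop_sound {x : ℕ → Bool} (t : DB) (ht : t.All x) (fuel h T F : ℕ) (ha : Agree x T F) :
    prop t fuel h T F = false := by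
  induction fuel generalizing h T F with
  | zero => rfl
  | succ f ih =>
    by_contra hne
    have hh : prop t (f + 1) h T F = true := by simpa using hne
    have e : prop t (f + 1) h T F =
      force (Nat.land h 1048575) fun i => t.get i fun p n =>
        unitStep (prop t f) h T F (Nat.xor p (Nat.land p F)) (Nat.xor n (Nat.land n T)) := rfl
    rw [e, force_eq] at hh
    obtain ⟨p, n, ⟨i, hi⟩, hk⟩ := t.get_sound ht _ _ hh
    have key : ((Nat.xor p (Nat.land p F)).testBit (i + 64) = true ∧ x i = true) ∨
        ((Nat.xor n (Nat.land n T)).testBit (i + 64) = true ∧ x i = false) := by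
      rcases hi with ⟨h1, h2⟩ | ⟨h1, h2⟩
      · left
        refine ⟨?_, h2⟩
        rw [tb_diff, h1]
        cases hF : F.testBit (i + 64)
        · rfl
        · rw [(ha i).2 hF] at h2; exact absurd h2 (by simp)
      · right
        refine ⟨?_, h2⟩
        rw [tb_diff, h1]
        cases hT : T.testBit (i + 64)
        · rfl
        · rw [(ha i).1 hT] at h2; exact absurd h2 (by simp)
    generalize Nat.xor p (Nat.land p F) = p' at hk key
    generalize Nat.xor n (Nat.land n T) = n' at hk key
    simp only [unitStep, force_eq] at hk
    cases hp : Nat.beq p' 0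
    · rw [hp] at hk
      cases hn : Nat.beq n' 0
      · rw [hn] at hk; exact absurd hk (by simp)
      · rw [hn] at hk
        have hn0 : n' = 0 := Nat.eq_of_beq_eq_true hn
        cases hq : Nat.beq (Nat.land p' (Nat.sub p' 1)) 0
        · rw [hq] at hk; exact absurd hk (by simp)
        · rw [hq] at hk
          have hq' := Nat.eq_of_beq_eq_true hq
          have hag : Agree x (Nat.lor T p') F := by
            intro j
            refine ⟨fun hj => ?_, (ha j).2⟩
            rw [tb_lor, Bool.or_eq_true] at hj
            rcases hj with hj | hj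
            · exact (ha j).1 hj
            · rcases key with ⟨h1, h2⟩ | ⟨h1, -⟩
              · rw [Nat.add_right_cancel (single_bit hq' hj h1)]; exact h2
              · rw [hn0] at h1; simp at h1
          have := ih (Nat.shiftRight h 20) _ _ hag
          rw [this] at hk
          exact absurd hk (by simp)
    · rw [hp] at hk
      have hp0 : p' = 0 := Nat.eq_of_beq_eq_true hp
      cases hn : Nat.beq n' 0
      · rw [hn] at hk
        cases hq : Nat.beq (Nat.land n' (Nat.sub n' 1)) 0
        · rw [hq] at hk; exact absurd hk (by simp)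
        · rw [hq] at hk
          have hq' := Nat.eq_of_beq_eq_true hq
          have hag : Agree x T (Nat.lor F n') := by
            intro j
            refine ⟨(ha j).1, fun hj => ?_⟩
            rw [tb_lor, Bool.or_eq_true] at hj
            rcases hj with hj | hj
            · exact (ha j).2 hj
            · rcases key with ⟨h1, -⟩ | ⟨h1, h2⟩
              · rw [hp0] at h1; simp at h1
              · rw [Nat.add_right_cancel (single_bit hq' hj h1)]; exact h2
          have := ih (Nat.shiftRight h 20) _ _ hag
          rw [this] at hk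
          exact absurd hk (by simp)
      · have hn0 : n' = 0 := Nat.eq_of_beq_eq_true hn
        rcases key with ⟨h1, -⟩ | ⟨h1, -⟩
        · rw [hp0] at h1; simp at h1
        · rw [hn0] at h1; simp at h1

/-- Read the literals of a packed step; pass on the two masks and the packed hints. -/
noncomputable def readLits (fuel : ℕ) : ℕ → ℕ → ℕ → (ℕ → ℕ → ℕ → Bool) → Bool :=
  Nat.rec (fun _ _ _ _ => false)
    (fun _ ih s p n k =>
      force (Nat.land s 1048575) fun d => force (Nat.shiftRight s 20) fun s' =>
        Bool.rec
          (Bool.rec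
            (ih s' p (Nat.lor n (Nat.pow 2 (Nat.add (Nat.shiftRight d 1) 64))) k)
            (ih s' (Nat.lor p (Nat.pow 2 (Nat.add (Nat.shiftRight d 1) 63))) n k)
            (Nat.beq (Nat.land d 1) 0))
          (force p fun p' => force n fun n' => k p' n' s') (Nat.beq d 0)) fuel

lemma readLits_sound (fuel s p n : ℕ) (k : ℕ → ℕ → ℕ → Bool)
    (h : readLits fuel s p n k = true) : ∃ p n s, k p n s = true := by
  induction fuel generalizing s p n with
  | zero => exact absurd h (by simp [readLits])
  | succ f ih =>
    have e : readLits (f + 1) s p n k =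
      force (Nat.land s 1048575) fun d => force (Nat.shiftRight s 20) fun s' =>
        Bool.rec
          (Bool.rec
            (readLits f s' p (Nat.lor n (Nat.pow 2 (Nat.add (Nat.shiftRight d 1) 64))) k)
            (readLits f s' (Nat.lor p (Nat.pow 2 (Nat.add (Nat.shiftRight d 1) 63))) n k)
            (Nat.beq (Nat.land d 1) 0))
          (force p fun p' => force n fun n' => k p' n' s') (Nat.beq d 0) := rfl
    rw [e] at h
    simp only [force_eq] at h
    cases hd : Nat.beq (Nat.land s 1048575) 0
    · rw [hd] at h
      cases hc : Nat.beq (Nat.land (Nat.land s 1048575) 1) 0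
      · rw [hc] at h; exact ih _ _ _ h
      · rw [hc] at h; exact ih _ _ _ h
    · rw [hd] at h; exact ⟨_, _, _, h⟩

/-- Start unit propagation from the negation of the clause `(p, n)`. -/
noncomputable def start (t : DB) (i h p n : ℕ) : Bool :=
  force (Nat.lor (Nat.land i 18446744073709551615) n) fun T =>
    force (Nat.lor (Nat.land i 18446744073709551615) p) fun F => prop t 100000 h T F

/-- Check the steps, then pass on the database and the next free index; a step deriving the
empty clause ends the check. -/
noncomputable def steps (l : List ℕ) : DB → ℕ → (DB → ℕ → Bool) → Bool :=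
  List.rec (fun t i k => k t i)
    (fun s _ ih t i k =>
      readLits 100000 s 0 0 fun p n h =>
        Bool.rec false
          (Bool.rec (ins i p n 64 t i fun t' => force (Nat.add i 1) fun i' => ih t' i' k) true
            (Bool.rec false (Nat.beq 0 n) (Nat.beq 0 p)))
          (start t i h p n)) l

lemma tb_salt (i a j : ℕ) :
    (Nat.lor (Nat.land i 18446744073709551615) a).testBit (j + 64) = a.testBit (j + 64) := by
  have e : Nat.land i 18446744073709551615 = i &&& (2 ^ 64 - 1) := rfl
  rw [tb_lor, e, Nat.testBit_and, Nat.testBit_two_pow_sub_one]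
  simp

lemma satM_of_start {x : ℕ → Bool} (t : DB) (ht : t.All x) {i h p n : ℕ}
    (hp : start t i h p n = true) : SatM x p n := by
  by_contra hc
  have hag : Agree x (Nat.lor (Nat.land i 18446744073709551615) n)
      (Nat.lor (Nat.land i 18446744073709551615) p) := by
    intro j
    rw [tb_salt, tb_salt]
    constructor
    · intro hi
      by_contra hx
      exact hc ⟨j, Or.inr ⟨hi, by simpa using hx⟩⟩
    · intro hi
      by_contra hx
      exact hc ⟨j, Or.inl ⟨hi, by simpa using hx⟩⟩
  unfold start at hp
  rw [force_eq, force_eq, prop_sound t ht _ h _ _ hag] at hp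
  exact absurd hp (by simp)

lemma steps_sound {x : ℕ → Bool} (l : List ℕ) (t : DB) (ht : t.All x) (i : ℕ)
    (k : DB → ℕ → Bool) (h : steps l t i k = true) : ∃ t' i', t'.All x ∧ k t' i' = true := by
  induction l generalizing t i with
  | nil => exact ⟨t, i, ht, h⟩
  | cons s l ih =>
    have e : steps (s :: l) t i k =
      readLits 100000 s 0 0 fun p n h =>
        Bool.rec false
          (Bool.rec (ins i p n 64 t i fun t' => force (Nat.add i 1) fun i' => steps l t' i' k)
            true (Bool.rec false (Nat.beq 0 n) (Nat.beq 0 p)))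
          (start t i h p n) := rfl
    rw [e] at h
    obtain ⟨p, n, s', hk⟩ := readLits_sound _ _ _ _ _ h
    cases hp : start t i s' p n
    · rw [hp] at hk; exact absurd hk (by simp)
    · rw [hp] at hk
      have hsat := satM_of_start t ht hp
      cases hz : (Bool.rec false (Nat.beq 0 n) (Nat.beq 0 p) : Bool)
      · rw [hz] at hk
        obtain ⟨t', h1, h2⟩ := ins_sound hsat _ t ht _ _ hk
        rw [force_eq] at h2
        exact ih t' h1 _ h2
      · exfalso
        cases hp0 : Nat.beq 0 p
        · rw [hp0] at hz; exact absurd hz (by simp)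
        · rw [hp0] at hz
          have h1 : 0 = p := Nat.eq_of_beq_eq_true hp0
          have h2 : 0 = n := Nat.eq_of_beq_eq_true hz
          obtain ⟨j, hj⟩ := hsat
          rw [← h1, ← h2] at hj
          simp at hj

/-- The mask of a list of variables. -/
noncomputable def mask (l : List ℕ) : ℕ :=
  List.rec 0 (fun i _ m => Nat.lor m (Nat.pow 2 (Nat.add i 64))) l

lemma mask_testBit {l : List ℕ} {i : ℕ} (h : i ∈ l) : (mask l).testBit (i + 64) = true := by
  induction l with
  | nil => simp at h
  | cons j l ih =>
    have e : mask (j :: l) = Nat.lor (mask l) (2 ^ (j + 64)) := rfl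
    rw [e, tb_lor]
    rcases List.mem_cons.1 h with rfl | h
    · simp
    · simp [ih h]

/-- Load the input clauses. -/
noncomputable def load (l : List Clause) : DB → ℕ → (DB → ℕ → Bool) → Bool :=
  List.rec (fun t i k => k t i)
    (fun c _ ih t i k =>
      force (mask c.1) fun p => force (mask c.2) fun n =>
        ins i p n 64 t i fun t' => force (Nat.add i 1) fun i' => ih t' i' k) l

lemma load_sound {x : ℕ → Bool} (l : List Clause) (hl : ∀ c ∈ l, c.Sat x) (t : DB)
    (ht : t.All x) (i : ℕ) (k : DB → ℕ → Bool) (h : load l t i k = true) :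
    ∃ t' i', t'.All x ∧ k t' i' = true := by
  induction l generalizing t i with
  | nil => exact ⟨t, i, ht, h⟩
  | cons c l ih =>
    have e : load (c :: l) t i k =
      force (mask c.1) fun p => force (mask c.2) fun n =>
        ins i p n 64 t i fun t' => force (Nat.add i 1) fun i' => load l t' i' k := rfl
    rw [e] at h
    simp only [force_eq] at h
    have hc : SatM x (mask c.1) (mask c.2) := by
      rcases hl c List.mem_cons_self with ⟨j, hj, hx⟩ | ⟨j, hj, hx⟩
      · exact ⟨j, Or.inl ⟨mask_testBit hj, hx⟩⟩
      · exact ⟨j, Or.inr ⟨mask_testBit hj, hx⟩⟩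
    obtain ⟨t', h1, h2⟩ := ins_sound hc _ t ht _ _ h
    exact ih (fun c hc => hl c (List.mem_cons_of_mem _ hc)) t' h1 _ h2

/-- Check several blocks of steps in turn. -/
noncomputable def blocks (l : List (List ℕ)) : DB → ℕ → Bool :=
  List.rec (fun _ _ => false) (fun b _ ih t i => steps b t i ih) l

lemma blocks_sound {x : ℕ → Bool} (l : List (List ℕ)) (t : DB) (ht : t.All x) (i : ℕ) :
    blocks l t i = false := by
  induction l generalizing t i with
  | nil => rfl
  | cons b l ih =>
    by_contra hne
    have h : steps b t i (blocks l) = true := by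
      have e : blocks (b :: l) t i = steps b t i (blocks l) := rfl
      rw [← e]; simpa using hne
    obtain ⟨t', i', h1, h2⟩ := steps_sound b t ht i _ h
    rw [ih t' h1 i'] at h2
    exact absurd h2 (by simp)

/-- The checker. -/
noncomputable def check (cnf : List Clause) (pf : List (List ℕ)) : Bool :=
  load cnf .leaf 1 (blocks pf)

/-- Soundness: a formula with an accepted refutation has no satisfying assignment. -/
theorem check_sound {cnf : List Clause} {pf : List (List ℕ)} (h : check cnf pf = true)
    (x : ℕ → Bool) (hx : ∀ c ∈ cnf, c.Sat x) : False := by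
  obtain ⟨t, i, h1, h2⟩ := load_sound cnf hx .leaf trivial 1 _ h
  rw [blocks_sound pf t h1 i] at h2
  exact absurd h2 (by simp)

end Pool.Agent.Lib.RUP
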